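import Pool.Agent.Helper40_ZOL.Stmts

/-!
# ZOL, row ALG: the split left inverse
-/

namespace Pool.Agent.ZOL.H34

open Finset Pool.Agent.ZOL

variable {K : Type}

theorem theta_single (v : K → ℤ) (j : ℕ) (k : K) (c : ℤ) :
    theta v j (Finsupp.single k c) = Finsupp.singleAddHom k (Ring.choose (v k) j * c) := by
  unfold theta
  rw [Finsupp.liftAddHom_apply_single]
  rfl

theorem lin_single (g : K → K) (k : K) (c : ℤ) :
    lin g (Finsupp.single k c) = Finsupp.singleAddHom (g k) c := by
  unfold lin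
  exact Finsupp.mapDomain_single

theorem theta_zero (v : K → ℤ) (x : K →₀ ℤ) : theta v 0 x = x := by
  induction x using Finsupp.induction_linear with
  | zero => rw [map_zero]
  | add x y hx hy => rw [map_add, hx, hy]
  | single k c =>
    rw [theta_single, Ring.choose_zero_right, one_mul]
    rfl

/-- the Vandermonde identity -/
theorem theta_lin (v : K → ℤ) (g : K → K) (e : ℤ) (hv : ∀ k, v (g k) = v k + e) (n : ℕ)
    (x : K →₀ ℤ) : theta v n (lin g x) =
      ∑ p ∈ antidiagonal n, Ring.choose e p.2 • lin g (theta v p.1 x) := by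
  induction x using Finsupp.induction_linear with
  | zero =>
    rw [map_zero, map_zero]
    refine (Finset.sum_eq_zero fun p _ => ?_).symm
    rw [map_zero, map_zero, smul_zero]
  | add x y hx hy =>
    rw [map_add, map_add, hx, hy, ← Finset.sum_add_distrib]
    refine Finset.sum_congr rfl fun p _ => ?_
    rw [map_add, map_add, smul_add]
  | single k c =>
    have h1 : Ring.choose (v (g k)) n * c =
        ∑ p ∈ antidiagonal n, Ring.choose e p.2 * (Ring.choose (v k) p.1 * c) := by
      rw [hv, Ring.add_choose_eq n (Commute.all _ _), Finset.sum_mul]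
      exact Finset.sum_congr rfl fun p _ => by ring
    rw [lin_single]
    change theta v n (Finsupp.single (g k) c) = _
    rw [theta_single, h1, map_sum]
    refine Finset.sum_congr rfl fun p _ => ?_
    rw [theta_single]
    change _ = Ring.choose e p.2 • lin g (Finsupp.single k (Ring.choose (v k) p.1 * c))
    rw [lin_single, ← map_zsmul, smul_eq_mul]

theorem tele (u : ℕ → K →₀ ℤ) (N : ℕ) :
    ∑ j ∈ range N, (-1 : ℤ) ^ j • (u (j + 1) + u j) = u 0 - (-1 : ℤ) ^ N • u N := by
  induction N with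
  | zero => simp
  | succ N ih =>
    rw [Finset.sum_range_succ, ih, smul_add, pow_succ, mul_neg, mul_one, neg_smul]
    abel

/-- ALG -/
theorem alg : AlgStmt := by
  intro K ι _ G v M s e m hm hG h0 hv hth hT hM hse d
  have anti : Antitone G := antitone_nat_of_succ_le hG
  obtain ⟨T0, hT0⟩ : ∃ T : (K →₀ ℤ) →+ (K →₀ ℤ), ∀ x, T x = ∑ i, s i • lin (M i) x := by
    refine ⟨∑ i, s i • lin (M i), fun x => ?_⟩
    rw [AddMonoidHom.finsetSum_apply]
    rfl
  obtain ⟨T, hTd⟩ : ∃ T : AddMonoid.End (K →₀ ℤ), ∀ x, T x = ∑ i, s i • lin (M i) x := ⟨T0, hT0⟩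
  have hTj : ∀ (j n : ℕ) (x : K →₀ ℤ), x ∈ G n → (T ^ j) x ∈ G (n + m * j) := by
    intro j
    induction j with
    | zero =>
      intro n x hx
      rw [pow_zero, mul_zero, add_zero]
      exact hx
    | succ j ih =>
      intro n x hx
      have h1 := hT _ _ (ih n x hx)
      rw [← hTd] at h1
      rw [pow_succ', mul_add, mul_one, ← add_assoc]
      exact h1
  have hMG : ∀ (i : ι) (n : ℕ) (x : K →₀ ℤ), x ∈ G n → lin (M i) x ∈ G n := by
    intro i n x hx
    have h1 := (G n).add_mem (hG n (hM i n x hx)) hx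
    rwa [sub_add_cancel] at h1
  obtain ⟨R, hR⟩ : ∃ R : (K →₀ ℤ) →+ (K →₀ ℤ), ∀ x, R x =
      ∑ j ∈ range (d + 1), (-1 : ℤ) ^ j • (T ^ j) (theta v (j + 1) x) := by
    refine ⟨∑ j ∈ range (d + 1), (-1 : ℤ) ^ j •
      ((T ^ j : AddMonoid.End (K →₀ ℤ)) : (K →₀ ℤ) →+ (K →₀ ℤ)).comp (theta v (j + 1)), fun x => ?_⟩
    rw [AddMonoidHom.finsetSum_apply]
    rfl
  have hRG : ∀ (n : ℕ) (x : K →₀ ℤ), x ∈ G (n + m) → R x ∈ G n := by
    intro n x hx
    rw [hR]
    refine AddSubgroup.sum_mem _ fun j _ => (G n).zsmul_mem ?_ _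
    refine anti ?_ (hTj j _ _ (hth (j + 1) _ x hx))
    have h1 : m * (j + 1) = m * j + m := by ring
    omega
  refine ⟨R, hRG d, fun x hx => hRG (d + 1) x (by rwa [add_right_comm]), fun x hx => ?_⟩
  rw [← hTd]
  -- the error terms
  have hE : ∀ j, ∃ z : K →₀ ℤ, theta v (j + 1) (T x) = T (theta v (j + 1) x) + theta v j x + z ∧
      (T ^ j) z ∈ G (d + 1) := by
    intro j
    refine ⟨theta v (j + 1) (T x) - T (theta v (j + 1) x) - theta v j x, by abel, ?_⟩
    have h1 : theta v (j + 1) (T x) = T (theta v (j + 1) x) +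
        ∑ i, s i • ∑ p ∈ antidiagonal j,
          Ring.choose (e i) (p.2 + 1) • lin (M i) (theta v p.1 x) := by
      rw [hTd x, hTd (theta v (j + 1) x), map_sum, ← Finset.sum_add_distrib]
      refine Finset.sum_congr rfl fun i _ => ?_
      rw [map_zsmul, theta_lin v (M i) (e i) (hv i), Finset.Nat.sum_antidiagonal_succ',
        Ring.choose_zero_right, one_smul, smul_add]
    have h2 : ∀ i, ∑ p ∈ antidiagonal j, Ring.choose (e i) (p.2 + 1) • lin (M i) (theta v p.1 x) =
        e i • lin (M i) (theta v j x) + ∑ p ∈ (antidiagonal j).erase (j, 0),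
          Ring.choose (e i) (p.2 + 1) • lin (M i) (theta v p.1 x) := by
      intro i
      rw [← Finset.add_sum_erase (antidiagonal j) _ (show (j, 0) ∈ antidiagonal j by simp)]
      simp only [zero_add, Ring.choose_one_right]
    have h3 : theta v (j + 1) (T x) - T (theta v (j + 1) x) - theta v j x =
        ∑ i, (s i * e i) • (lin (M i) (theta v j x) - theta v j x) +
        ∑ i, s i • ∑ p ∈ (antidiagonal j).erase (j, 0),
          Ring.choose (e i) (p.2 + 1) • lin (M i) (theta v p.1 x) := by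
      have h4 : theta v j x = ∑ i, (s i * e i) • theta v j x := by
        rw [← Finset.sum_smul, hse, one_smul]
      rw [h1]
      simp only [h2, smul_add, Finset.sum_add_distrib, smul_sub, Finset.sum_sub_distrib, mul_smul]
      simp only [mul_smul] at h4
      rw [← h4]
      abel
    rw [h3, map_add, map_sum, map_sum]
    refine AddSubgroup.add_mem _ (AddSubgroup.sum_mem _ fun i _ => ?_)
      (AddSubgroup.sum_mem _ fun i _ => ?_)
    · rw [map_zsmul]
      refine AddSubgroup.zsmul_mem _ (anti ?_ (hTj j _ _ (hM i _ _ (hth j d x hx)))) _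
      omega
    · rw [map_zsmul, map_sum]
      refine AddSubgroup.zsmul_mem _ (AddSubgroup.sum_mem _ fun p hp => ?_) _
      rw [map_zsmul]
      obtain ⟨hp1, hp2⟩ := Finset.mem_erase.1 hp
      have hp2 : p.1 + p.2 = j := by simpa using hp2
      have hp3 : p.1 < j := by
        rcases Nat.lt_or_ge p.1 j with h | h
        · exact h
        · exfalso
          apply hp1
          apply Prod.ext
          · change p.1 = j
            omega
          · change p.2 = 0
            omega
      refine AddSubgroup.zsmul_mem _ (anti ?_ (hTj j _ _ (hMG i _ _ (hth p.1 d x hx)))) _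
      have h5 : m * p.1 + m ≤ m * j := by
        calc m * p.1 + m = m * (p.1 + 1) := by ring
          _ ≤ m * j := Nat.mul_le_mul_left m hp3
      omega
  choose z hz hzG using hE
  have h6 : R (T x) = ∑ j ∈ range (d + 1), (-1 : ℤ) ^ j •
      ((T ^ (j + 1)) (theta v (j + 1) x) + (T ^ j) (theta v j x)) +
      ∑ j ∈ range (d + 1), (-1 : ℤ) ^ j • (T ^ j) (z j) := by
    rw [hR, ← Finset.sum_add_distrib]
    refine Finset.sum_congr rfl fun j _ => ?_
    rw [hz j, map_add, map_add, smul_add, pow_succ]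
    rfl
  rw [h6, tele (fun j => (T ^ j) (theta v j x)) (d + 1)]
  have h7 : (T ^ 0) (theta v 0 x) = x := by
    rw [pow_zero, theta_zero]
    rfl
  have h8 : (T ^ (d + 1)) (theta v (d + 1) x) ∈ G (d + 1) := by
    refine anti ?_ (hTj (d + 1) _ _ (hth (d + 1) d x hx))
    have : d + 1 ≤ m * (d + 1) := Nat.le_mul_of_pos_left _ hm
    omega
  have h9 : (T ^ 0) (theta v 0 x) - (-1 : ℤ) ^ (d + 1) • (T ^ (d + 1)) (theta v (d + 1) x) +
      ∑ j ∈ range (d + 1), (-1 : ℤ) ^ j • (T ^ j) (z j) - x =
      ∑ j ∈ range (d + 1), (-1 : ℤ) ^ j • (T ^ j) (z j) -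
        (-1 : ℤ) ^ (d + 1) • (T ^ (d + 1)) (theta v (d + 1) x) := by
    rw [h7]
    abel
  rw [h9]
  exact AddSubgroup.sub_mem _ (AddSubgroup.sum_mem _ fun j _ =>
    AddSubgroup.zsmul_mem _ (hzG j) _) (AddSubgroup.zsmul_mem _ h8 _)

end Pool.Agent.ZOL.H34
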